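import Mathlib

/-!
# Cofinalities used for sigma-products

`CountableCof I κ`: the cofinality of the family of the countable subsets of `I`, ordered by
inclusion, is at most `κ`. `MeagreCof κ`: the cofinality `cof(M)` of the ideal of the meagre subsets
of the Cantor set is at most `κ`. `IsLuzin L`: `L` is a Luzin subset of the Cantor set.
-/

set_option autoImplicit false

open Set Topology Cardinal

namespace Pool.Agent.Y302.SG

universe u

/-- `cof([I]^{≤ω}, ⊆) ≤ κ` -/
def CountableCof (I : Type u) (κ : Cardinal.{u}) : Prop :=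
  ∃ C : Set (Set I), #C ≤ κ ∧ (∀ A ∈ C, A.Countable) ∧
    ∀ S : Set I, S.Countable → ∃ A ∈ C, S ⊆ A

/-- `cof(M) ≤ κ`, for the ideal `M` of the meagre subsets of the Cantor set -/
def MeagreCof (κ : Cardinal.{u}) : Prop :=
  ∃ N : Set (Set (ℕ → Bool)), Cardinal.lift.{u} #N ≤ κ ∧ (∀ A ∈ N, IsMeagre A) ∧
    ∀ M : Set (ℕ → Bool), IsMeagre M → ∃ A ∈ N, M ⊆ A

/-- a Luzin set: an uncountable set of which every meagre subset is countable -/
def IsLuzin (L : Set (ℕ → Bool)) : Prop :=
  ¬ L.Countable ∧ ∀ M : Set (ℕ → Bool), IsMeagre M → (L ∩ M).Countable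

/-- `X` has a dense subspace which is not d-separable: no countable union of discrete subsets of `D`
is dense. -/
def HasBadDense (X : Type u) [TopologicalSpace X] : Prop :=
  ∃ D : Set X, Dense D ∧ ∀ F : ℕ → Set X, (∀ n, F n ⊆ D ∧ IsDiscrete (F n)) → ¬ Dense (⋃ n, F n)

end Pool.Agent.Y302.SG
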