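import Pool.Agent.Y302.SG.Avoid
import Pool.Agent.Y302.SG.Defs
import Pool.Agent.Helper539.AuerWalk

/-!
# Luzin sets and the sigma-product of `ℵ₁` two-point spaces
-/

set_option autoImplicit false

open Set Topology Cardinal

namespace Pool.Agent.Y302.SG

open Pool.Agent.H94R3.Sigma

universe u

variable {I : Type u}

/-- flipping the coordinates in a finite set -/
def flip (q : Finset ℕ) : (ℕ → Bool) → (ℕ → Bool) := fun y k => xor (y k) (decide (k ∈ q))

theorem flip_flip (q : Finset ℕ) (y : ℕ → Bool) : flip q (flip q y) = y := by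
  funext k
  simp only [flip]
  cases y k <;> cases decide (k ∈ q) <;> rfl

theorem continuous_flip (q : Finset ℕ) : Continuous (flip q) := by
  refine continuous_pi fun k => ?_
  exact (continuous_of_discreteTopology (f := fun b : Bool => xor b (decide (k ∈ q)))).comp
    (continuous_apply k)

/-- flipping as a homeomorphism -/
def flipHomeo (q : Finset ℕ) : (ℕ → Bool) ≃ₜ (ℕ → Bool) where
  toFun := flip q
  invFun := flip q
  left_inv := flip_flip q
  right_inv := flip_flip q
  continuous_toFun := continuous_flip q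
  continuous_invFun := continuous_flip q

theorem isMeagre_flip (q : Finset ℕ) {N : Set (ℕ → Bool)} (hN : IsMeagre N) :
    IsMeagre (flip q ⁻¹' N) :=
  hN.preimage_of_isOpenMap (flipHomeo q).continuous (flipHomeo q).isOpenMap

/-- The points with finitely many flips in a meagre set form a meagre set. -/
theorem isMeagre_flips {N : Set (ℕ → Bool)} (hN : IsMeagre N) :
    IsMeagre {y | ∃ q, flip q y ∈ N} := by
  have : {y | ∃ q, flip q y ∈ N} = ⋃ q, flip q ⁻¹' N := by
    ext y
    simp
  rw [this]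
  exact isMeagre_iUnion fun q => isMeagre_flip q hN

/-- The dense set: points which agree below some `α`, up to finitely many coordinates, with
`y α ∘ e α`, and vanish from `α` on. -/
def LD [LinearOrder I] (y : I → ℕ → Bool) (e : I → I → ℕ) : Set (SigmaCantor I) :=
  {x | ∃ (α : I) (J : Finset I), (∀ i, α ≤ i → x.1 i = false) ∧
    ∀ i, i < α → i ∉ J → x.1 i = y α (e α i)}

theorem exists_bound [LinearOrder I] (hc : ∀ α : I, (Iio α).Countable)
    (hI : ¬ (Set.univ : Set I).Countable) (S : Set I) (hS : S.Countable) :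
    ∃ b : I, ∀ i ∈ S, i < b := by
  by_contra h
  push Not at h
  refine hI ((hS.biUnion fun i _ => (hc i).insert i).mono ?_)
  intro b _
  obtain ⟨i, hi, hib⟩ := h b
  refine mem_biUnion hi ?_
  rcases hib.lt_or_eq with h | h
  · exact Or.inr h
  · exact Or.inl h

theorem dense_LD [LinearOrder I] (hc : ∀ α : I, (Iio α).Countable)
    (hI : ¬ (Set.univ : Set I).Countable) (y : I → ℕ → Bool) (e : I → I → ℕ) :
    Dense (LD y e) := by
  classical
  rw [dense_iff]
  intro s hs
  obtain ⟨α, hα⟩ := exists_bound hc hI ((s.1 ∪ s.2 : Finset I) : Set I)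
    (Finset.countable_toSet _)
  let z : I → Bool := fun i => if i ∈ s.1 then true else if i ∈ s.2 then false else
    if i < α then y α (e α i) else false
  have hz : ∀ i, α ≤ i → z i = false := by
    intro i hi
    have h1 : i ∉ s.1 := fun h => absurd (hα i (by simp [h])) (not_lt.2 hi)
    have h2 : i ∉ s.2 := fun h => absurd (hα i (by simp [h])) (not_lt.2 hi)
    simp only [z, if_neg h1, if_neg h2, if_neg (not_lt.2 hi)]
  refine ⟨⟨z, (hc α).mono fun i hi => ?_⟩, ⟨fun i hi => ?_, fun i hi => ?_⟩, α, s.1 ∪ s.2, hz,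
    fun i hi hij => ?_⟩
  · by_contra h
    exact hi (hz i (not_lt.1 h))
  · simp only [z, if_pos hi]
  · have h1 : i ∉ s.1 := fun h => hs i h hi
    simp only [z, if_neg h1, if_pos hi]
  · have h1 : i ∉ s.1 := fun h => hij (Finset.mem_union_left _ h)
    have h2 : i ∉ s.2 := fun h => hij (Finset.mem_union_right _ h)
    simp only [z, if_neg h1, if_neg h2, if_pos hi]

/-- `UU` depends only on the values on the common support. -/
theorem UU_congr {e e' : I → ℕ} {S : Set I} (h : ∀ i ∈ S, e i = e' i)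
    {G : ℕ → Finset I × Finset I}
    (hG : ∀ m, ((G m).1 : Set I) ⊆ S ∧ ((G m).2 : Set I) ⊆ S) : UU e G = UU e' G := by
  ext y
  constructor
  · rintro ⟨m, h1, h2⟩
    exact ⟨m, fun i hi => by rw [← h i ((hG m).1 hi)]; exact h1 i hi,
      fun i hi => by rw [← h i ((hG m).2 hi)]; exact h2 i hi⟩
  · rintro ⟨m, h1, h2⟩
    exact ⟨m, fun i hi => by rw [h i ((hG m).1 hi)]; exact h1 i hi,
      fun i hi => by rw [h i ((hG m).2 hi)]; exact h2 i hi⟩

/-- **Luzin sets.** -/
theorem exists_dense_of_luzin_order [Infinite I] [LinearOrder I] [WellFoundedLT I]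
    (hc : ∀ α : I, (Iio α).Countable) (hI : ¬ (Set.univ : Set I).Countable)
    (L : Set (ℕ → Bool)) (hL : ∀ M : Set (ℕ → Bool), IsMeagre M → (L ∩ M).Countable)
    (y : I → ℕ → Bool) (hy : Function.Injective y) (hyL : ∀ α, y α ∈ L) :
    ∃ D : Set (SigmaCantor I), Dense D ∧ ∀ F : ℕ → Set (SigmaCantor I),
      (∀ n, F n ⊆ D ∧ IsDiscrete (F n)) → ¬ Dense (⋃ n, F n) := by
  classical
  obtain ⟨e, he, hecoh⟩ := Pool.Agent.Helper539.Auer.exists_coherent_injections hc
  refine ⟨LD y e, dense_LD hc hI y e, ?_⟩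
  intro F hF hdense
  obtain ⟨S, hS, G, hG⟩ := exists_avoid F fun n => (hF n).2
  obtain ⟨d, hd⟩ := exists_bound hc hI S hS
  have hGS : ∀ n m, ((G n m).1 : Set I) ⊆ S ∧ ((G n m).2 : Set I) ⊆ S := fun n m =>
    ⟨((hG n).2 m).1, ((hG n).2 m).2.1⟩
  -- the exceptional meagre set
  let M : I → Set (ℕ → Bool) := fun α => {z | ∃ q, flip q z ∈ ⋃ n, (UU (e α) (G n))ᶜ}
  have hM : ∀ α, d ≤ α → IsMeagre (M α) := by
    intro α hα
    refine isMeagre_flips (isMeagre_iUnion fun n => ?_)
    refine isMeagre_compl_UU (e α) S ?_ (G n) (hG n).1 fun m =>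
      ⟨((hG n).2 m).1, ((hG n).2 m).2.1, ((hG n).2 m).2.2.1⟩
    intro i hi j hj hij
    exact he α ((hd i hi).trans_le hα) ((hd j hj).trans_le hα) hij
  -- there are only countably many of them
  have hMc : {A | ∃ α, d ≤ α ∧ A = M α}.Countable := by
    have := (hecoh d).image (fun h : Iio d → ℕ =>
      {z : ℕ → Bool | ∃ q, flip q z ∈ ⋃ n,
        (UU (fun i => if hi : i < d then h ⟨i, hi⟩ else 0) (G n))ᶜ})
    refine this.mono ?_
    rintro A ⟨α, hα, rfl⟩
    refine ⟨_, ⟨⟨α, hα⟩, rfl⟩, ?_⟩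
    have : ∀ n, UU (fun i => if hi : i < d then
        (fun ξ : Iio d => e α ξ.1) ⟨i, hi⟩ else 0) (G n) = UU (e α) (G n) := by
      intro n
      refine UU_congr (S := S) (fun i hi => ?_) (hGS n)
      rw [dif_pos (hd i hi)]
    simp only [M, this]
  let MM : Set (ℕ → Bool) := ⋃ A ∈ {A | ∃ α, d ≤ α ∧ A = M α}, A
  have hMM : IsMeagre MM := isMeagre_biUnion hMc (by
    rintro A ⟨α, hα, rfl⟩
    exact hM α hα)
  have hBc : {α | y α ∈ MM}.Countable := by
    refine ((hL MM hMM).preimage_of_injOn (f := y) hy.injOn).mono ?_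
    intro α hα
    exact ⟨hyL α, hα⟩
  obtain ⟨b, hb⟩ := exists_bound hc hI (Iio d ∪ {α | y α ∈ MM}) ((hc d).union hBc)
  obtain ⟨x, hx, hxF⟩ := dense_iff.1 hdense ({b}, ∅) (by intro k _; simp)
  obtain ⟨n, hn⟩ := mem_iUnion.1 hxF
  have hxb : x.1 b = true := hx.1 b (by simp)
  obtain ⟨α, J, hα1, hα2⟩ := (hF n).1 hn
  have hαb : ¬ α < b := by
    intro h
    have := hα1 b h.le
    rw [hxb] at this
    exact absurd this (by simp)
  refine hαb (hb α ?_)
  by_cases hαd : α < d
  · exact Or.inl hαd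
  push Not at hαd
  refine Or.inr (mem_biUnion (x := M α) ⟨α, hαd, rfl⟩ ?_)
  let J' : Finset I := J.filter fun i => i < d ∧ x.1 i ≠ y α (e α i)
  refine ⟨J'.image (e α), mem_iUnion.2 ⟨n, ?_⟩⟩
  have hval : ∀ i ∈ S, flip (J'.image (e α)) (y α) (e α i) = x.1 i := by
    intro i hi
    have hid : i < d := hd i hi
    have hiα : i < α := hid.trans_le hαd
    by_cases hJ : i ∈ J'
    · have h1 : e α i ∈ J'.image (e α) := Finset.mem_image_of_mem _ hJ
      have h2 := (Finset.mem_filter.1 hJ).2.2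
      simp only [flip, h1, decide_true]
      revert h2
      cases y α (e α i) <;> cases x.1 i <;> simp
    · have h1 : e α i ∉ J'.image (e α) := by
        intro h
        obtain ⟨j, hj, hji⟩ := Finset.mem_image.1 h
        have hjα : j < α := ((Finset.mem_filter.1 hj).2.1).trans_le hαd
        have := he α hjα hiα hji
        subst this
        exact hJ hj
      simp only [flip, h1, decide_false, Bool.xor_false]
      by_contra hne
      by_cases hiJ : i ∈ J
      · exact hJ (Finset.mem_filter.2 ⟨hiJ, hid, fun h => hne h.symm⟩)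
      · exact hne (hα2 i hiα hiJ).symm
  rintro ⟨m, hm1, hm2⟩
  have hbox : x ∈ box (G n m) := by
    refine ⟨fun j hj => ?_, fun j hj => ?_⟩
    · rw [← hval j ((hGS n m).1 hj)]
      exact hm1 j hj
    · rw [← hval j ((hGS n m).2 hj)]
      exact hm2 j hj
  have h4 := ((hG n).2 m).2.2.2
  have : x ∈ box (G n m) ∩ F n := ⟨hbox, hn⟩
  rw [h4] at this
  exact this

/-- **Luzin sets**: if there is a Luzin set and `|I| = ℵ₁`, then `Σ(2^I)` has a dense subset no
dense subset of which is a countable union of discrete sets. -/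
theorem exists_dense_of_luzin (hI : #I = ℵ₁) (L : Set (ℕ → Bool)) (hL : IsLuzin L) :
    ∃ D : Set (SigmaCantor I), Dense D ∧ ∀ F : ℕ → Set (SigmaCantor I),
      (∀ n, F n ⊆ D ∧ IsDiscrete (F n)) → ¬ Dense (⋃ n, F n) := by
  classical
  have hinf : Infinite I := by
    rw [Cardinal.infinite_iff, hI]
    exact Cardinal.aleph0_le_aleph 1
  have hun : ¬ (Set.univ : Set I).Countable := by
    rw [← Cardinal.le_aleph0_iff_set_countable, Cardinal.mk_univ, hI, not_le]
    exact Cardinal.aleph0_lt_aleph_one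
  obtain ⟨_, _, hr⟩ := Cardinal.exists_ord_eq_type_lt I
  have hc : ∀ α : I, (Iio α).Countable := by
    intro α
    rw [← Cardinal.le_aleph0_iff_set_countable]
    have h1 : #(Iio α) < #I := Cardinal.mk_Iio_lt α hr
    rw [hI, ← Cardinal.succ_aleph0, Order.lt_succ_iff] at h1
    exact h1
  have hLc : Cardinal.lift.{0} #I ≤ Cardinal.lift.{u} #L := by
    rw [hI]
    have h1 : ℵ₀ < #L := by
      rw [← not_le, Cardinal.le_aleph0_iff_set_countable]
      exact hL.1
    have h2 : (ℵ₁ : Cardinal.{0}) ≤ #L := by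
      rw [← Cardinal.succ_aleph0]
      exact Order.succ_le_of_lt h1
    have h3 := Cardinal.lift_le.{u}.2 h2
    simpa using h3
  obtain ⟨g⟩ := Cardinal.lift_mk_le'.1 hLc
  exact exists_dense_of_luzin_order hc hun L hL.2 (fun α => (g α).1)
    (fun a b h => g.injective (Subtype.ext h)) fun α => (g α).2

end Pool.Agent.Y302.SG
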