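import Pool.Agent.Y245.SG.Stm

/-!
# Project SG of helper245 (by helper302): independence of shifted polynomials; the dimension of the
solution space; the forms are not identically zero
-/

set_option autoImplicit false

open Complex Polynomial Filter Topology

namespace Pool.Agent.Y302.SG

open Pool.Agent.Y245.SG

theorem logt : S_LOG := by
  intro N Θ e hper hN hsum
  obtain ⟨ω, hω⟩ := hN
  have hperk : ∀ (k : ℕ) (j : ℕ), Θ j (ω + k * (2 * Real.pi * I)) = Θ j ω := by
    intro k j
    induction k with
    | zero => simp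
    | succ k ih =>
      rw [← ih, ← hper j (ω + k * (2 * Real.pi * I))]
      congr 1
      push_cast
      ring
  obtain ⟨Q, hQ⟩ : ∃ Q : ℂ[X], Q = ∑ m ∈ Finset.range (N + 1), C (e m) *
      ∑ j ∈ Finset.range (N + 1), (X + C (m : ℂ)) ^ j * C (Θ j ω) := ⟨_, rfl⟩
  have hpi : (2 * Real.pi * I : ℂ) ≠ 0 := Complex.two_pi_I_ne_zero
  have hQ0 : Q = 0 := by
    apply Polynomial.eq_zero_of_infinite_isRoot
    have hinj : Function.Injective (fun k : ℕ => ω + k * (2 * Real.pi * I)) := by
      intro a b hab
      have h1 : (a : ℂ) * (2 * Real.pi * I) = b * (2 * Real.pi * I) := add_left_cancel hab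
      exact Nat.cast_injective (mul_right_cancel₀ hpi h1)
    apply Set.Infinite.mono (s := Set.range (fun k : ℕ => ω + k * (2 * Real.pi * I))) _
      (Set.infinite_range_of_injective hinj)
    rintro _ ⟨k, rfl⟩
    show Polynomial.IsRoot Q _
    unfold Polynomial.IsRoot
    have h1 := hsum (ω + k * (2 * Real.pi * I))
    rw [hQ, Polynomial.eval_finsetSum]
    refine Eq.trans ?_ h1
    refine Finset.sum_congr rfl fun m _ => ?_
    rw [Polynomial.eval_mul, Polynomial.eval_C, Polynomial.eval_finsetSum]
    congr 1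
    refine Finset.sum_congr rfl fun j _ => ?_
    rw [hperk k j]
    simp
  have hcoef : ∀ i, ∑ j ∈ Finset.range (N + 1), Θ j ω * (j.choose i : ℂ) *
      ∑ m ∈ Finset.range (N + 1), e m * (m : ℂ) ^ (j - i) = 0 := by
    intro i
    have h1 : Q.coeff i = 0 := by rw [hQ0, Polynomial.coeff_zero]
    rw [hQ, Polynomial.finsetSum_coeff] at h1
    rw [← h1]
    have h2 : ∀ m ∈ Finset.range (N + 1), (C (e m) * ∑ j ∈ Finset.range (N + 1),
        (X + C (m : ℂ)) ^ j * C (Θ j ω)).coeff i = ∑ j ∈ Finset.range (N + 1),
        Θ j ω * (j.choose i : ℂ) * (e m * (m : ℂ) ^ (j - i)) := by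
      intro m _
      rw [Polynomial.coeff_C_mul, Polynomial.finsetSum_coeff, Finset.mul_sum]
      refine Finset.sum_congr rfl fun j _ => ?_
      rw [Polynomial.coeff_mul_C, Polynomial.coeff_X_add_C_pow]
      ring
    rw [Finset.sum_congr rfl h2, Finset.sum_comm]
    refine Finset.sum_congr rfl fun j _ => ?_
    rw [Finset.mul_sum]
  have hS : ∀ r, r ≤ N → ∑ m ∈ Finset.range (N + 1), e m * (m : ℂ) ^ r = 0 := by
    intro r
    induction r using Nat.strong_induction_on with
    | _ r ih =>
      intro hr
      have h1 := hcoef (N - r)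
      rw [Finset.sum_range_succ] at h1
      have h2 : ∑ j ∈ Finset.range N, Θ j ω * (j.choose (N - r) : ℂ) *
          ∑ m ∈ Finset.range (N + 1), e m * (m : ℂ) ^ (j - (N - r)) = 0 := by
        refine Finset.sum_eq_zero fun j hj => ?_
        rw [Finset.mem_range] at hj
        rcases Nat.lt_or_ge j (N - r) with h3 | h3
        · rw [Nat.choose_eq_zero_of_lt h3]
          simp
        · rw [ih (j - (N - r)) (by omega) (by omega), mul_zero]
      rw [h2, zero_add, show N - (N - r) = r by omega] at h1
      rcases mul_eq_zero.mp h1 with h3 | h3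
      · rcases mul_eq_zero.mp h3 with h4 | h4
        · exact absurd h4 hω
        · have h5 : N.choose (N - r) ≠ 0 := (Nat.choose_pos (Nat.sub_le _ _)).ne'
          exact absurd (Nat.cast_eq_zero.mp h4) h5
      · exact h3
  have hv : (fun j : Fin (N + 1) => e j) = 0 := by
    apply Matrix.eq_zero_of_forall_pow_sum_mul_pow_eq_zero
      (f := fun j : Fin (N + 1) => ((j : ℕ) : ℂ))
    · intro a b hab
      exact Fin.ext (Nat.cast_injective hab)
    · intro i
      rw [← Finset.sum_range (fun m : ℕ => e m * (m : ℂ) ^ (i : ℕ))]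
      exact hS i (by omega)
  intro m hm
  exact congrFun hv ⟨m, by omega⟩

end Pool.Agent.Y302.SG
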