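import Pool.Agent.Y245.SG.Stm

/-!
# Project SG of helper245 (by helper302): the dimension of the solution space
-/

set_option autoImplicit false

open Complex Polynomial Filter Topology

namespace Pool.Agent.Y302.SG

open Pool.Agent.Y245.SG

/-- derivatives of an entire function are entire -/
theorem diff_iter {f : ℂ → ℂ} (hf : Differentiable ℂ f) (k : ℕ) :
    Differentiable ℂ (iteratedDeriv k f) := by
  induction k with
  | zero =>
    rw [iteratedDeriv_zero]
    exact hf
  | succ k ih =>
    rw [iteratedDeriv_succ]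
    exact ih.deriv

theorem iter_iter (f : ℂ → ℂ) (i k : ℕ) :
    iteratedDeriv i (iteratedDeriv k f) = iteratedDeriv (k + i) f := by
  rw [iteratedDeriv_eq_iterate, iteratedDeriv_eq_iterate, iteratedDeriv_eq_iterate,
    add_comm k i, Function.iterate_add_apply]

theorem cda {f : ℂ → ℂ} (hf : Differentiable ℂ f) (n : WithTop ℕ∞) (x : ℂ) :
    ContDiffAt ℂ n f x := hf.contDiff.contDiffAt

theorem ode : S_ODE := by
  classical
  intro N q h hq hex hh hsum
  -- the largest index
  obtain ⟨K, hKN, ω₀, hK0, hKmax⟩ : ∃ K ≤ N, ∃ ω₀, q K ω₀ ≠ 0 ∧ ∀ k, K < k → k ≤ N →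
      ∀ ω, q k ω = 0 := by
    obtain ⟨T, hT⟩ : ∃ T : Finset ℕ, T = (Finset.range (N + 1)).filter (fun k => ∃ ω, q k ω ≠ 0) :=
      ⟨_, rfl⟩
    have hmT : ∀ k, k ∈ T ↔ k ∈ Finset.range (N + 1) ∧ ∃ ω, q k ω ≠ 0 := by
      intro k
      rw [hT]
      exact Finset.mem_filter
    have hTne : T.Nonempty := by
      obtain ⟨k, hk, ω, hω⟩ := hex
      exact ⟨k, (hmT k).mpr ⟨Finset.mem_range.mpr (by omega), ω, hω⟩⟩
    obtain ⟨h1, h2⟩ : T.max' hTne ∈ T ∧ ∀ k ∈ T, k ≤ T.max' hTne :=
      ⟨T.max'_mem hTne, fun k hk => T.le_max' k hk⟩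
    obtain ⟨h3, ω, hω⟩ := (hmT _).mp h1
    refine ⟨T.max' hTne, by have := Finset.mem_range.mp h3; omega, ω, hω, ?_⟩
    intro k hk hkN ω'
    by_contra hne
    have := h2 k ((hmT k).mpr ⟨Finset.mem_range.mpr (by omega), ω', hne⟩)
    omega
  -- the combination
  obtain ⟨e0, he0, he1⟩ : ∃ e0 : Fin (N + 1) → ℂ, e0 ≠ 0 ∧ ∀ k < K,
      ∑ m : Fin (N + 1), e0 m * iteratedDeriv k (h m) ω₀ = 0 := by
    obtain ⟨F, hF⟩ : ∃ F : (Fin (N + 1) → ℂ) →ₗ[ℂ] (Fin K → ℂ), ∀ (e : Fin (N + 1) → ℂ) (k : Fin K),
        F e k = ∑ m : Fin (N + 1), e m * iteratedDeriv k (h m) ω₀ := by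
      refine ⟨Matrix.mulVecLin (Matrix.of fun (k : Fin K) (m : Fin (N + 1)) =>
        iteratedDeriv k (h m) ω₀), ?_⟩
      intro e k
      rw [Matrix.mulVecLin_apply]
      show ∑ m : Fin (N + 1), iteratedDeriv k (h m) ω₀ * e m = _
      exact Finset.sum_congr rfl fun m _ => mul_comm _ _
    have hker : LinearMap.ker F ≠ ⊥ := by
      apply LinearMap.ker_ne_bot_of_finrank_lt
      rw [Module.finrank_fin_fun, Module.finrank_fin_fun]
      omega
    obtain ⟨e0, he, hne⟩ := (Submodule.ne_bot_iff _).mp hker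
    refine ⟨e0, hne, fun k hk => ?_⟩
    have h1 := congrFun (LinearMap.mem_ker.mp he) ⟨k, hk⟩
    rw [hF] at h1
    exact h1
  obtain ⟨e, he⟩ : ∃ e : ℕ → ℂ, ∀ m : Fin (N + 1), e m = e0 m := by
    refine ⟨fun m => if hm : m < N + 1 then e0 ⟨m, hm⟩ else 0, fun m => ?_⟩
    exact dif_pos m.isLt
  refine ⟨e, ?_, ?_⟩
  · obtain ⟨m, hm⟩ := Function.ne_iff.mp he0
    refine ⟨m, by omega, ?_⟩
    rw [he]
    exact hm
  obtain ⟨f, hf⟩ : ∃ f : ℂ → ℂ, f = fun ω => ∑ m ∈ Finset.range (N + 1), e m * h m ω := ⟨_, rfl⟩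
  have hfd : Differentiable ℂ f := by
    rw [hf]
    exact Differentiable.fun_sum fun m _ => (hh m).const_mul (e m)
  have hfi : ∀ k ω, iteratedDeriv k f ω =
      ∑ m ∈ Finset.range (N + 1), e m * iteratedDeriv k (h m) ω := by
    intro k ω
    rw [hf, iteratedDeriv_fun_sum fun m _ => (cda ((hh m).const_mul (e m)) _ _)]
    refine Finset.sum_congr rfl fun m _ => ?_
    exact iteratedDeriv_const_mul_field (e m) (h m)
  have hlow : ∀ k < K, iteratedDeriv k f ω₀ = 0 := by
    intro k hk
    rw [hfi, Finset.sum_range]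
    rw [← he1 k hk]
    exact Finset.sum_congr rfl fun m _ => by rw [he]
  have heq : ∀ ω, ∑ k ∈ Finset.range (K + 1), q k ω * iteratedDeriv k f ω = 0 := by
    intro ω
    have h1 : ∑ k ∈ Finset.range (N + 1), q k ω * iteratedDeriv k f ω = 0 := by
      have h2 : ∀ k ∈ Finset.range (N + 1), q k ω * iteratedDeriv k f ω =
          ∑ m ∈ Finset.range (N + 1), e m * (q k ω * iteratedDeriv k (h m) ω) := by
        intro k _
        rw [hfi, Finset.mul_sum]
        exact Finset.sum_congr rfl fun m _ => by ring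
      rw [Finset.sum_congr rfl h2, Finset.sum_comm]
      refine Finset.sum_eq_zero fun m hm => ?_
      rw [← Finset.mul_sum, hsum m (by have := Finset.mem_range.mp hm; omega) ω, mul_zero]
    rw [← h1]
    apply Finset.sum_subset
    · intro k hk
      rw [Finset.mem_range] at hk ⊢
      omega
    · intro k hk hk'
      rw [Finset.mem_range] at hk hk'
      rw [hKmax k (by omega) (by omega) ω, zero_mul]
  have hder : ∀ n, iteratedDeriv n f ω₀ = 0 := by
    intro n
    induction n using Nat.strong_induction_on with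
    | _ n ih =>
      rcases Nat.lt_or_ge n K with hn | hn
      · exact hlow n hn
      · have h1 : iteratedDeriv (n - K) (fun ω => ∑ k ∈ Finset.range (K + 1),
            q k ω * iteratedDeriv k f ω) ω₀ = 0 := by
          have h2 : (fun ω => ∑ k ∈ Finset.range (K + 1), q k ω * iteratedDeriv k f ω) =
              fun _ => (0 : ℂ) := by
            funext ω
            exact heq ω
          rw [h2]
          exact iteratedDeriv_fun_const_zero
        rw [iteratedDeriv_fun_sum fun k _ => (cda (f := fun ω => q k ω * iteratedDeriv k f ω)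
          ((hq k).mul (diff_iter hfd k)) _ _)] at h1
        have h3 : ∀ k ∈ Finset.range (K + 1), iteratedDeriv (n - K)
            (fun ω => q k ω * iteratedDeriv k f ω) ω₀ =
            if k = K then q K ω₀ * iteratedDeriv n f ω₀ else 0 := by
          intro k hk
          rw [Finset.mem_range] at hk
          rw [iteratedDeriv_fun_mul (cda (hq k) _ _) (cda (diff_iter hfd k) _ _)]
          have h4 : ∀ i ∈ Finset.range (n - K + 1), (((n - K).choose i : ℕ) : ℂ) *
              iteratedDeriv i (q k) ω₀ * iteratedDeriv (n - K - i) (iteratedDeriv k f) ω₀ =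
              if i = 0 then q k ω₀ * iteratedDeriv (k + (n - K)) f ω₀ else 0 := by
            intro i hi
            rw [Finset.mem_range] at hi
            rw [iter_iter]
            by_cases hi0 : i = 0
            · subst hi0
              rw [if_pos rfl, Nat.choose_zero_right, iteratedDeriv_zero, Nat.sub_zero]
              push_cast
              ring
            · rw [if_neg hi0, ih (k + (n - K - i)) (by omega), mul_zero]
          rw [Finset.sum_congr rfl h4, Finset.sum_ite_eq' (Finset.range (n - K + 1)) 0]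
          rw [if_pos (Finset.mem_range.mpr (by omega))]
          by_cases hkK : k = K
          · subst hkK
            rw [if_pos rfl, show k + (n - k) = n by omega]
          · rw [if_neg hkK, ih (k + (n - K)) (by omega), mul_zero]
        rw [Finset.sum_congr rfl h3, Finset.sum_ite_eq' (Finset.range (K + 1)) K,
          if_pos (Finset.mem_range.mpr (by omega))] at h1
        exact (mul_eq_zero.mp h1).resolve_left hK0
  intro ω
  have h1 := Complex.taylorSeries_eq_of_entire' (c := ω₀) (z := ω) hfd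
  simp only [hder, mul_zero, zero_mul, tsum_zero] at h1
  rw [hf] at h1
  exact h1.symm

end Pool.Agent.Y302.SG
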