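import Pool.Agent.Y245.SG.Stm

/-!
# Project SG of helper245 (by helper302): the forms are not identically zero
-/

set_option autoImplicit false

open Complex Polynomial Filter Topology

namespace Pool.Agent.Y302.SG

open Pool.Agent.Y245.SG

theorem ze1 : S_ZE1 := by
  intro hB hNC hINF N P hex
  by_contra hcon
  push Not at hcon
  have hd0 : Differentiable ℂ (Bn 0) := (hB 0).1
  have hd1 : Differentiable ℂ (Bn 1) := (hB 1).1
  have hz : ∀ z : ℂ, z ≠ 0 → ∑ i ∈ Finset.range (N + 1),
      aeval z (P i) * Bn 0 z ^ i * Bn 1 z ^ (N - i) = 0 := by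
    intro z hz
    have h1 := hcon (Complex.log z)
    unfold lamG at h1
    simp only [Complex.exp_log hz] at h1
    exact h1
  have hB00 : Bn 0 0 = 1 := by
    have h1 := (hB 0).2.1 0
    have h2 : HasSum (fun k : ℕ => (-(0 : ℂ)) ^ k / ((k.factorial : ℂ) *
        ((k + 0).factorial : ℂ))) 1 := by
      have h3 := hasSum_single (f := fun k : ℕ => (-(0 : ℂ)) ^ k / ((k.factorial : ℂ) *
        ((k + 0).factorial : ℂ))) 0 (by
          intro k hk
          show (-(0 : ℂ)) ^ k / _ = 0
          rw [neg_zero, zero_pow hk, zero_div])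
      simpa using h3
    exact h1.unique h2
  -- the least index
  obtain ⟨i0, hi0N, hi0, hmin⟩ : ∃ i0 ≤ N, P i0 ≠ 0 ∧ ∀ i < i0, P i = 0 := by
    classical
    obtain ⟨i, hiN, hi⟩ := hex
    have hE : ∃ i, P i ≠ 0 := ⟨i, hi⟩
    refine ⟨Nat.find hE, (Nat.find_min' hE hi).trans hiN, Nat.find_spec hE, ?_⟩
    intro j hj
    by_contra hne
    exact Nat.find_min hE hj hne
  obtain ⟨F, hF⟩ : ∃ F : ℂ → ℂ, F = fun z => ∑ i ∈ Finset.range (N + 1),
      (if i0 ≤ i then aeval z (P i) * Bn 0 z ^ (i - i0) * Bn 1 z ^ (N - i) else 0) := ⟨_, rfl⟩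
  have hFc : Continuous F := by
    rw [hF]
    refine continuous_finsetSum _ fun i _ => ?_
    split_ifs
    · exact (((P i).continuous_aeval).mul (hd0.continuous.pow _)).mul (hd1.continuous.pow _)
    · exact continuous_const
  have hFz : ∀ z, z ≠ 0 → Bn 0 z ≠ 0 → F z = 0 := by
    intro z hz0 hzB
    have h1 : Bn 0 z ^ i0 * F z = 0 := by
      rw [← hz z hz0, hF, Finset.mul_sum]
      refine Finset.sum_congr rfl fun i _ => ?_
      by_cases hi : i0 ≤ i
      · rw [if_pos hi]
        have h2 : Bn 0 z ^ i = Bn 0 z ^ i0 * Bn 0 z ^ (i - i0) := by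
          rw [← pow_add]
          congr 1
          omega
        rw [h2]
        ring
      · rw [if_neg hi, hmin i (by omega)]
        simp
    exact (mul_eq_zero.mp h1).resolve_left (pow_ne_zero _ hzB)
  have hroot : ∀ z, Bn 0 z = 0 → aeval z (P i0) = 0 := by
    intro z hzB
    have hz0 : z ≠ 0 := by
      rintro rfl
      rw [hB00] at hzB
      exact one_ne_zero hzB
    -- F z = 0
    have hFz0 : F z = 0 := by
      have hA : AnalyticOnNhd ℂ (Bn 0) Set.univ := fun w _ => hd0.analyticAt w
      rcases (hd0.analyticAt z).eventually_eq_zero_or_eventually_ne_zero with h1 | h1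
      · exfalso
        have h2 := hA.eqOn_zero_of_preconnected_of_eventuallyEq_zero isPreconnected_univ
          (Set.mem_univ z) h1
        have h3 : Bn 0 0 = 0 := h2 (Set.mem_univ 0)
        rw [hB00] at h3
        exact one_ne_zero h3
      · have h2 : ∀ᶠ w in 𝓝[≠] z, F w = 0 := by
          have h3 : ∀ᶠ w in 𝓝[≠] z, w ≠ 0 :=
            (continuousAt_id.eventually_ne hz0).filter_mono nhdsWithin_le_nhds
          filter_upwards [h1, h3] with w hw1 hw2
          exact hFz w hw2 hw1
        have h4 : Tendsto F (𝓝[≠] z) (𝓝 (F z)) := hFc.continuousAt.mono_left nhdsWithin_le_nhds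
        have h5 : Tendsto F (𝓝[≠] z) (𝓝 0) :=
          (tendsto_congr' h2).mpr tendsto_const_nhds
        exact tendsto_nhds_unique h4 h5
    rw [hF] at hFz0
    have h6 : ∑ i ∈ Finset.range (N + 1), (if i0 ≤ i then aeval z (P i) * Bn 0 z ^ (i - i0) *
        Bn 1 z ^ (N - i) else 0) = aeval z (P i0) * Bn 1 z ^ (N - i0) := by
      rw [Finset.sum_eq_single i0]
      · rw [if_pos le_rfl, Nat.sub_self, pow_zero, mul_one]
      · intro i _ hi
        by_cases h7 : i0 ≤ i
        · rw [if_pos h7, hzB, zero_pow (by omega), mul_zero, zero_mul]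
        · rw [if_neg h7]
      · intro h7
        exact absurd (Finset.mem_range.mpr (by omega)) h7
    have h7 : aeval z (P i0) * Bn 1 z ^ (N - i0) = 0 := h6.symm.trans hFz0
    have h8 : Bn 1 z ≠ 0 := fun h => hNC hB 0 z ⟨hzB, h⟩
    exact (mul_eq_zero.mp h7).resolve_right (pow_ne_zero _ h8)
  -- infinitely many roots
  have hmap : (P i0).map (Int.castRingHom ℂ) = 0 := by
    apply Polynomial.eq_zero_of_infinite_isRoot
    apply Set.Infinite.mono _ (hINF hB)
    intro z hz
    show Polynomial.IsRoot _ z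
    unfold Polynomial.IsRoot
    have h1 := hroot z hz
    rw [Polynomial.eval_map]
    rw [Polynomial.aeval_def] at h1
    exact h1
  exact hi0 ((Polynomial.map_eq_zero_iff (RingHom.injective_int _)).mp hmap)

end Pool.Agent.Y302.SG
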