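import Pool.Agent.H94R3.SigmaNeg

/-!
# Avoiding countably many discrete subsets of a sigma-product

Countably many discrete subsets of `Σ(2^I)` (`I` infinite) are avoided by predense sets of
conditions which live on one countable set of coordinates; read in the Cantor set they give open
dense sets.
-/

set_option autoImplicit false

open Set Topology Cardinal

namespace Pool.Agent.Y302.SG

open Pool.Agent.H94R3.Sigma

universe u

variable {I : Type u}

/-- Countably many discrete sets are avoided by countable predense sets of conditions on a common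
countable set of coordinates. -/
theorem exists_avoid [Infinite I] (F : ℕ → Set (SigmaCantor I)) (hF : ∀ n, IsDiscrete (F n)) :
    ∃ S : Set I, S.Countable ∧ ∃ G : ℕ → ℕ → Finset I × Finset I, ∀ n,
      Predense (range (G n)) ∧ ∀ m, ((G n m).1 : Set I) ⊆ S ∧ ((G n m).2 : Set I) ⊆ S ∧
        Con (G n m) ∧ box (G n m) ∩ F n = ∅ := by
  classical
  have hav : ∀ (n : ℕ) (s : Finset I × Finset I), ∃ t : Finset I × Finset I,
      Con s → Con t ∧ s.1 ⊆ t.1 ∧ s.2 ⊆ t.2 ∧ box t ∩ F n = ∅ := by
    intro n s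
    by_cases hs : Con s
    swap
    · exact ⟨s, fun h => absurd h hs⟩
    rcases (box s ∩ F n).eq_empty_or_nonempty with h | ⟨x, hxs, hxF⟩
    · exact ⟨s, fun _ => ⟨hs, subset_rfl, subset_rfl, h⟩⟩
    obtain ⟨U, hU, hUx⟩ := (isDiscrete_iff_forall_mem_exists_isOpen.1 (hF n)) x hxF
    have hxU : x ∈ U := (hUx.symm ▸ mem_singleton x : x ∈ U ∩ F n).1
    obtain ⟨u, hxu, huU⟩ := exists_box hU hxU
    obtain ⟨i, hi⟩ := Infinite.exists_notMem_finset ((un s u).1 ∪ (un s u).2)
    have hi1 : i ∉ (un s u).1 := fun h => hi (Finset.mem_union_left _ h)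
    have hi2 : i ∉ (un s u).2 := fun h => hi (Finset.mem_union_right _ h)
    have hxsu : x ∈ box (un s u) := by rw [box_un]; exact ⟨hxs, hxu⟩
    have hcon : Con (un s u) := con_of_mem_box hxsu
    have hkill : ∀ y ∈ box (un s u), y ∈ F n → y = x := by
      intro y hy hyF
      rw [box_un] at hy
      have : y ∈ U ∩ F n := ⟨huU hy.2, hyF⟩
      rw [hUx] at this
      exact this
    rcases hb : x.1 i with _ | _
    · refine ⟨(insert i (un s u).1, (un s u).2), fun _ => ⟨?_, ?_, ?_, ?_⟩⟩
      · intro k hk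
        rcases Finset.mem_insert.1 hk with rfl | hk
        · exact hi2
        · exact hcon k hk
      · exact Finset.subset_union_left.trans (Finset.subset_insert _ _)
      · exact Finset.subset_union_left
      · rw [eq_empty_iff_forall_notMem]
        rintro y ⟨hy, hyF⟩
        have h1 : y ∈ box (un s u) :=
          ⟨fun k hk => hy.1 k (Finset.mem_insert_of_mem hk), hy.2⟩
        have h2 := hkill y h1 hyF
        have h3 := hy.1 i (Finset.mem_insert_self _ _)
        rw [h2, hb] at h3
        exact absurd h3 (by simp)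
    · refine ⟨((un s u).1, insert i (un s u).2), fun _ => ⟨?_, ?_, ?_, ?_⟩⟩
      · intro k hk hk'
        rcases Finset.mem_insert.1 hk' with rfl | hk'
        · exact hi1 hk
        · exact hcon k hk hk'
      · exact Finset.subset_union_left
      · exact Finset.subset_union_left.trans (Finset.subset_insert _ _)
      · rw [eq_empty_iff_forall_notMem]
        rintro y ⟨hy, hyF⟩
        have h1 : y ∈ box (un s u) :=
          ⟨hy.1, fun k hk => hy.2 k (Finset.mem_insert_of_mem hk)⟩
        have h2 := hkill y h1 hyF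
        have h3 := hy.2 i (Finset.mem_insert_self _ _)
        rw [h2, hb] at h3
        exact absurd h3 (by simp)
  choose g hg using hav
  obtain ⟨S, hS, -, hSc⟩ := exists_countable_closed
    (fun s => ⋃ n, (((g n s).1 : Set I) ∪ ((g n s).2 : Set I)))
    (fun s => countable_iUnion fun n => (g n s).1.countable_toSet.union (g n s).2.countable_toSet)
    ∅ countable_empty
  let E : ℕ → Set (Finset I × Finset I) := fun n =>
    (fun s => g n s) '' {s | Con s ∧ (s.1 : Set I) ⊆ S ∧ (s.2 : Set I) ⊆ S}
  have hEc : ∀ n, (E n).Countable := by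
    intro n
    have := hS.to_subtype
    have hfin : {s : Finset I | (s : Set I) ⊆ S}.Countable := by
      refine (countable_range fun t : Finset S => t.map (Function.Embedding.subtype _)).mono ?_
      intro s hs
      refine ⟨s.subtype (· ∈ S), ?_⟩
      ext i
      simp only [Finset.mem_map, Finset.mem_subtype, Function.Embedding.coe_subtype]
      constructor
      · rintro ⟨j, hj, rfl⟩
        exact hj
      · intro hi
        exact ⟨⟨i, hs hi⟩, hi, rfl⟩
    refine Countable.image ((hfin.prod hfin).mono ?_) _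
    intro s hs
    exact ⟨hs.2.1, hs.2.2⟩
  have hEne : ∀ n, (E n).Nonempty := fun n =>
    ⟨g n (∅, ∅), (∅, ∅), ⟨by intro i hi; simp at hi, by simp, by simp⟩, rfl⟩
  choose G hG using fun n => (hEc n).exists_eq_range (hEne n)
  refine ⟨S, hS, G, fun n => ⟨?_, ?_⟩⟩
  · intro s hs
    rw [← hG n]
    let s' : Finset I × Finset I := (s.1.filter (· ∈ S), s.2.filter (· ∈ S))
    have hs' : Con s' := fun k hk hk' => hs k (Finset.mem_filter.1 hk).1 (Finset.mem_filter.1 hk').1
    have h1 : (s'.1 : Set I) ⊆ S := fun k hk => (Finset.mem_filter.1 hk).2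
    have h2 : (s'.2 : Set I) ⊆ S := fun k hk => (Finset.mem_filter.1 hk).2
    refine ⟨g n s', ⟨s', ⟨hs', h1, h2⟩, rfl⟩, ?_⟩
    obtain ⟨hc, hc1, hc2, -⟩ := hg n s' hs'
    have hsub := hSc s' h1 h2
    have hsub1 : ((g n s').1 : Set I) ⊆ S := fun k hk =>
      hsub (mem_iUnion.2 ⟨n, Or.inl hk⟩)
    have hsub2 : ((g n s').2 : Set I) ⊆ S := fun k hk =>
      hsub (mem_iUnion.2 ⟨n, Or.inr hk⟩)
    intro k hk hk'
    simp only [un, Finset.mem_union] at hk hk'
    rcases hk with hk | hk <;> rcases hk' with hk' | hk'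
    · exact hs k hk hk'
    · exact hc k (hc1 (Finset.mem_filter.2 ⟨hk, hsub2 hk'⟩)) hk'
    · exact hc k hk (hc2 (Finset.mem_filter.2 ⟨hk', hsub1 hk⟩))
    · exact hc k hk hk'
  · intro m
    have hmE : G n m ∈ E n := by
      rw [hG n]
      exact ⟨m, rfl⟩
    obtain ⟨s, hs, hsm⟩ := hmE
    simp only at hsm
    have hsub := hSc s hs.2.1 hs.2.2
    rw [← hsm]
    exact ⟨fun k hk => hsub (mem_iUnion.2 ⟨n, Or.inl hk⟩),
      fun k hk => hsub (mem_iUnion.2 ⟨n, Or.inr hk⟩), (hg n s hs.1).1, (hg n s hs.1).2.2.2⟩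

/-- The open subset of the Cantor set given by a sequence of conditions and a numbering of the
coordinates. -/
def UU (e : I → ℕ) (G : ℕ → Finset I × Finset I) : Set (ℕ → Bool) :=
  {y | ∃ m, (∀ i ∈ (G m).1, y (e i) = true) ∧ ∀ i ∈ (G m).2, y (e i) = false}

theorem isOpen_eval (k : ℕ) (b : Bool) : IsOpen {y : ℕ → Bool | y k = b} := by
  have hf : Continuous fun y : ℕ → Bool => y k := continuous_apply k
  exact (isOpen_discrete ({b} : Set Bool)).preimage hf

theorem isOpen_UU (e : I → ℕ) (G : ℕ → Finset I × Finset I) : IsOpen (UU e G) := by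
  have h : UU e G = ⋃ m, ((⋂ i ∈ (G m).1, {y : ℕ → Bool | y (e i) = true}) ∩
      ⋂ i ∈ (G m).2, {y : ℕ → Bool | y (e i) = false}) := by
    ext y
    simp [UU]
  rw [h]
  exact isOpen_iUnion fun m => (isOpen_biInter_finset fun i _ => isOpen_eval _ _).inter
    (isOpen_biInter_finset fun i _ => isOpen_eval _ _)

theorem dense_UU (e : I → ℕ) (S : Set I) (he : InjOn e S) (G : ℕ → Finset I × Finset I)
    (hG : Predense (range G))
    (hS : ∀ m, ((G m).1 : Set I) ⊆ S ∧ ((G m).2 : Set I) ⊆ S ∧ Con (G m)) :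
    Dense (UU e G) := by
  classical
  rw [dense_iff_inter_open]
  rintro O hO ⟨y0, hy0⟩
  obtain ⟨J, v, hv, hJ⟩ := isOpen_pi_iff.1 hO y0 hy0
  have hfin : {i ∈ S | e i ∈ J}.Finite := by
    refine Set.Finite.of_finite_image (f := e) (J.finite_toSet.subset ?_)
      (he.mono fun i hi => hi.1)
    rintro _ ⟨i, hi, rfl⟩
    exact hi.2
  obtain ⟨_, ⟨m, rfl⟩, hm⟩ := hG
    ((hfin.toFinset.filter fun i => y0 (e i) = true), hfin.toFinset.filter fun i => y0 (e i) = false)
    (by
      intro i h1 h2
      rw [Finset.mem_filter] at h1 h2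
      rw [h1.2] at h2
      exact absurd h2.2 (by simp))
  obtain ⟨hs1, hs2, hc⟩ := hS m
  let y : ℕ → Bool := fun k => if k ∈ J then y0 k else decide (∃ i ∈ (G m).1, e i = k)
  have hyJ : ∀ k ∈ J, y k = y0 k := fun k hk => by simp only [y, if_pos hk]
  refine ⟨y, hJ ?_, m, ?_, ?_⟩
  · intro k hk
    rw [hyJ k hk]
    exact (hv k hk).2
  · intro i hi
    by_cases hJi : e i ∈ J
    · rw [hyJ _ hJi]
      by_contra hne
      refine hm i ?_ ?_
      · simp only [un, Finset.mem_union]
        exact Or.inr hi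
      · simp only [un, Finset.mem_union]
        refine Or.inl (Finset.mem_filter.2 ⟨?_, by simpa using hne⟩)
        rw [Set.Finite.mem_toFinset]
        exact ⟨hs1 hi, hJi⟩
    · simp only [y, if_neg hJi, decide_eq_true_eq]
      exact ⟨i, hi, rfl⟩
  · intro i hi
    by_cases hJi : e i ∈ J
    · rw [hyJ _ hJi]
      by_contra hne
      refine hm i ?_ ?_
      · simp only [un, Finset.mem_union]
        refine Or.inl (Finset.mem_filter.2 ⟨?_, by simpa using hne⟩)
        rw [Set.Finite.mem_toFinset]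
        exact ⟨hs2 hi, hJi⟩
      · simp only [un, Finset.mem_union]
        exact Or.inr hi
    · simp only [y, if_neg hJi, decide_eq_false_iff_not]
      rintro ⟨i', hi', hii⟩
      have := he (hs1 hi') (hs2 hi) hii
      subst this
      exact hc _ hi' hi

theorem isMeagre_compl_UU (e : I → ℕ) (S : Set I) (he : InjOn e S)
    (G : ℕ → Finset I × Finset I) (hG : Predense (range G))
    (hS : ∀ m, ((G m).1 : Set I) ⊆ S ∧ ((G m).2 : Set I) ⊆ S ∧ Con (G m)) :
    IsMeagre (UU e G)ᶜ := by
  rw [IsMeagre, compl_compl]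
  exact residual_of_dense_open (isOpen_UU e G) (dense_UU e S he G hG hS)

end Pool.Agent.Y302.SG
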