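import Pool.Agent.Y302.SG.Avoid
import Pool.Agent.Y302.SG.Defs

/-!
# Sigma-products with few meagre sets
-/

set_option autoImplicit false

open Set Topology Cardinal

namespace Pool.Agent.Y302.SG

open Pool.Agent.H94R3.Sigma

universe u

variable {I : Type u}

/-- The conditions on the coordinates `a k` that force a point of the Cantor set into `V`. -/
def WW (a : ℕ → I) (V : Set (ℕ → Bool)) : Set (Finset I × Finset I) :=
  {w | (w.1 : Set I) ⊆ range a ∧ (w.2 : Set I) ⊆ range a ∧
    ∀ y : ℕ → Bool, (∀ k, a k ∈ w.1 → y k = true) → (∀ k, a k ∈ w.2 → y k = false) → y ∈ V}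

theorem countable_WW (a : ℕ → I) (V : Set (ℕ → Bool)) : (WW a V).Countable := by
  classical
  have hS : (range a).Countable := countable_range a
  have := hS.to_subtype
  have hfin : {s : Finset I | (s : Set I) ⊆ range a}.Countable := by
    refine (countable_range fun t : Finset (range a) =>
      t.map (Function.Embedding.subtype _)).mono ?_
    intro s hs
    refine ⟨s.subtype (· ∈ range a), ?_⟩
    ext i
    simp only [Finset.mem_map, Finset.mem_subtype, Function.Embedding.coe_subtype]
    constructor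
    · rintro ⟨j, hj, rfl⟩
      exact hj
    · intro hi
      exact ⟨⟨i, hs hi⟩, hi, rfl⟩
  refine (hfin.prod hfin).mono ?_
  intro s hs
  exact ⟨hs.1, hs.2.1⟩

theorem predense_WW (a : ℕ → I) (ha : Function.Injective a) (V : Set (ℕ → Bool))
    (hV : IsOpen V) (hd : Dense V) : Predense (WW a V) := by
  classical
  intro s hs
  -- the open set given by `s`
  have hf1 : (a ⁻¹' (s.1 : Set I)).Finite := s.1.finite_toSet.preimage ha.injOn
  have hf2 : (a ⁻¹' (s.2 : Set I)).Finite := s.2.finite_toSet.preimage ha.injOn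
  let O : Set (ℕ → Bool) := (⋂ k ∈ hf1.toFinset, {y : ℕ → Bool | y k = true}) ∩
    ⋂ k ∈ hf2.toFinset, {y : ℕ → Bool | y k = false}
  have hO : IsOpen O := (isOpen_biInter_finset fun i _ => isOpen_eval _ _).inter
    (isOpen_biInter_finset fun i _ => isOpen_eval _ _)
  have hOm : ∀ y : ℕ → Bool, y ∈ O ↔ (∀ k, a k ∈ s.1 → y k = true) ∧
      ∀ k, a k ∈ s.2 → y k = false := by
    intro y
    simp [O]
  have hOne : O.Nonempty := by
    refine ⟨fun k => decide (a k ∈ s.1), (hOm _).2 ⟨fun k hk => by simpa using hk,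
      fun k hk => ?_⟩⟩
    simp only [decide_eq_false_iff_not]
    exact fun h => hs _ h hk
  obtain ⟨y, hyO, hyV⟩ := hd.inter_open_nonempty O hO hOne
  obtain ⟨hy1, hy2⟩ := (hOm y).1 hyO
  obtain ⟨J, v, hv, hJ⟩ := isOpen_pi_iff.1 hV y hyV
  refine ⟨((J.filter fun k => y k = true).image a, (J.filter fun k => y k = false).image a),
    ⟨?_, ?_, ?_⟩, ?_⟩
  · intro i hi
    rw [Finset.mem_coe, Finset.mem_image] at hi
    obtain ⟨k, -, rfl⟩ := hi
    exact mem_range_self k
  · intro i hi
    rw [Finset.mem_coe, Finset.mem_image] at hi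
    obtain ⟨k, -, rfl⟩ := hi
    exact mem_range_self k
  · intro z hz1 hz2
    refine hJ fun k hk => ?_
    have hzk : z k = y k := by
      rcases hb : y k with _ | _
      · exact hz2 k (Finset.mem_image_of_mem a (Finset.mem_filter.2 ⟨hk, hb⟩))
      · exact hz1 k (Finset.mem_image_of_mem a (Finset.mem_filter.2 ⟨hk, hb⟩))
    rw [hzk]
    exact (hv k hk).2
  · intro i h1 h2
    simp only [un, Finset.mem_union] at h1 h2
    rcases h1 with h1 | h1 <;> rcases h2 with h2 | h2
    · exact hs i h1 h2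
    · obtain ⟨k, hk, rfl⟩ := Finset.mem_image.1 h2
      have h3 := hy1 k h1
      rw [(Finset.mem_filter.1 hk).2] at h3
      exact absurd h3 (by simp)
    · obtain ⟨k, hk, rfl⟩ := Finset.mem_image.1 h1
      have h3 := hy2 k h2
      rw [(Finset.mem_filter.1 hk).2] at h3
      exact absurd h3 (by simp)
    · obtain ⟨k, hk, rfl⟩ := Finset.mem_image.1 h1
      obtain ⟨k', hk', hkk⟩ := Finset.mem_image.1 h2
      have := ha hkk
      subst this
      have h3 := (Finset.mem_filter.1 hk).2
      rw [(Finset.mem_filter.1 hk').2] at h3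
      exact absurd h3 (by simp)

/-- a countable set is contained in the range of an injective sequence -/
theorem exists_inj_seq [Infinite I] (A : Set I) (hA : A.Countable) :
    ∃ a : ℕ → I, Function.Injective a ∧ A ⊆ range a := by
  let B : Set I := A ∪ range (Infinite.natEmbedding I)
  have hB : B.Countable := hA.union (countable_range _)
  have hBi : B.Infinite := (infinite_range_of_injective (Infinite.natEmbedding I).injective).mono
    subset_union_right
  have := hB.to_subtype
  have := hBi.to_subtype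
  obtain ⟨f⟩ := nonempty_equiv_of_countable (α := ℕ) (β := B)
  refine ⟨fun n => (f n : I), fun m n h => f.injective (Subtype.ext h), fun i hi => ?_⟩
  exact ⟨f.symm ⟨i, Or.inl hi⟩, by simp⟩

/-- the complement of a meagre set contains a countable intersection of open dense sets -/
theorem exists_open_seq (N : Set (ℕ → Bool)) (hN : IsMeagre N) :
    ∃ V : ℕ → Set (ℕ → Bool), (∀ k, IsOpen (V k)) ∧ (∀ k, Dense (V k)) ∧
      ∀ y, (∀ k, y ∈ V k) → y ∉ N := by
  obtain ⟨T, hT1, hT2, hT3, hT4⟩ := mem_residual_iff.1 hN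
  obtain ⟨V, hV⟩ := (hT3.insert Set.univ).exists_eq_range (insert_nonempty _ _)
  have hV' : ∀ k, V k ∈ insert Set.univ T := fun k => hV ▸ mem_range_self k
  refine ⟨V, fun k => ?_, fun k => ?_, fun y hy => ?_⟩
  · rcases hV' k with h | h
    · rw [h]; exact isOpen_univ
    · exact hT1 _ h
  · rcases hV' k with h | h
    · rw [h]; exact dense_univ
    · exact hT2 _ h
  · have : y ∈ ⋂₀ T := by
      intro t ht
      have : t ∈ range V := hV ▸ mem_insert_of_mem _ ht
      obtain ⟨k, rfl⟩ := this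
      exact hy k
    exact hT4 this

/-- **Few meagre sets.** If the cofinality of the family of the countable subsets of `I` and
`cof(M)` are at most `|I|`, then `Σ(2^I)` has a dense subset no dense subset of which is a
countable union of discrete sets. -/
theorem exists_dense_of_cof [Infinite I] (h1 : CountableCof I #I) (h2 : MeagreCof.{u} #I) :
    ∃ D : Set (SigmaCantor I), Dense D ∧ ∀ F : ℕ → Set (SigmaCantor I),
      (∀ n, F n ⊆ D ∧ IsDiscrete (F n)) → ¬ Dense (⋃ n, F n) := by
  classical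
  obtain ⟨C, hC, hCc, hCcof⟩ := h1
  obtain ⟨N, hN, hNm, hNcof⟩ := h2
  obtain ⟨jC⟩ := hC
  have hN' : Cardinal.lift.{u} #N ≤ Cardinal.lift.{0} #I := by simpa using hN
  obtain ⟨jN⟩ := Cardinal.lift_mk_le'.1 hN'
  obtain ⟨jI⟩ := Cardinal.eq.1 (show #(I × I) = #I by
    rw [Cardinal.mk_prod, Cardinal.lift_id, Cardinal.mul_eq_self (Cardinal.aleph0_le_mk I)])
  obtain ⟨A0, hA0, -⟩ := hCcof ∅ countable_empty
  obtain ⟨N0, hN0, -⟩ := hNcof ∅ IsMeagre.empty
  have : Nonempty C := ⟨⟨A0, hA0⟩⟩
  have : Nonempty N := ⟨⟨N0, hN0⟩⟩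
  let pC : I → C := fun i => Function.invFun jC (jI.symm i).1
  let pN : I → N := fun i => Function.invFun jN (jI.symm i).2
  have hp : ∀ (c : C) (n : N), ∃ i, pC i = c ∧ pN i = n := by
    intro c n
    refine ⟨jI (jC c, jN n), ?_, ?_⟩
    · simp only [pC, Equiv.symm_apply_apply]
      exact Function.leftInverse_invFun jC.injective c
    · simp only [pN, Equiv.symm_apply_apply]
      exact Function.leftInverse_invFun jN.injective n
  choose a ha haC using fun c : C => exists_inj_seq c.1 (hCc c.1 c.2)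
  choose V hVo hVd hVN using fun n : N => exists_open_seq n.1 (hNm n.1 n.2)
  have hW : ∀ (i : I) (k : ℕ), ∃ r : ℕ → Finset I × Finset I,
      WW (a (pC i)) (V (pN i) k) = range r := by
    intro i k
    refine (countable_WW _ _).exists_eq_range ?_
    obtain ⟨w, hw, -⟩ := predense_WW (a (pC i)) (ha _) _ (hVo (pN i) k) (hVd (pN i) k) (∅, ∅)
      (by intro i hi; simp at hi)
    exact ⟨w, hw⟩
  choose r hr using hW
  have : Nonempty I := inferInstance
  refine ⟨Gen r, dense_gen r, ?_⟩
  intro F hF hdense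
  obtain ⟨S, hS, G, hG⟩ := exists_avoid F fun n => (hF n).2
  obtain ⟨A, hA, hSA⟩ := hCcof S hS
  let c : C := ⟨A, hA⟩
  let e : I → ℕ := Function.invFun (a c)
  have hea : ∀ k, e (a c k) = k := Function.leftInverse_invFun (ha c)
  have hae : ∀ i ∈ S, a c (e i) = i := by
    intro i hi
    obtain ⟨k, rfl⟩ := haC c (hSA hi)
    rw [hea]
  have heS : InjOn e S := by
    intro i hi j hj hij
    rw [← hae i hi, ← hae j hj, hij]
  have hM : IsMeagre (⋃ n, (UU e (G n))ᶜ) := isMeagre_iUnion fun n =>
    isMeagre_compl_UU e S heS (G n) (hG n).1 fun m =>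
      ⟨((hG n).2 m).1, ((hG n).2 m).2.1, ((hG n).2 m).2.2.1⟩
  obtain ⟨B, hB, hMB⟩ := hNcof _ hM
  obtain ⟨i, hi1, hi2⟩ := hp c ⟨B, hB⟩
  obtain ⟨x, hx, hxF⟩ := dense_iff.1 hdense ({i}, ∅) (by intro k _; simp)
  obtain ⟨n, hn⟩ := mem_iUnion.1 hxF
  have hxi : x.1 i = true := hx.1 i (by simp)
  have hxV : ∀ k, (fun l => x.1 (a c l)) ∈ V ⟨B, hB⟩ k := by
    intro k
    have hpre : Predense (range (r i k)) := by
      rw [← hr i k]
      exact predense_WW _ (ha _) _ (hVo _ _) (hVd _ _)
    obtain ⟨m, hm⟩ := (hF n).1 hn i hxi k hpre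
    have hw : r i k m ∈ WW (a (pC i)) (V (pN i) k) := by
      rw [hr i k]
      exact mem_range_self m
    rw [hi1, hi2] at hw
    exact hw.2.2 _ (fun l hl => hm.1 _ hl) fun l hl => hm.2 _ hl
  have hxB : (fun l => x.1 (a c l)) ∉ B := hVN ⟨B, hB⟩ _ hxV
  have hxU : (fun l => x.1 (a c l)) ∈ UU e (G n) := by
    by_contra h
    exact hxB (hMB (mem_iUnion.2 ⟨n, h⟩))
  obtain ⟨m, hm1, hm2⟩ := hxU
  have hbox : x ∈ box (G n m) := by
    refine ⟨fun j hj => ?_, fun j hj => ?_⟩
    · have := hm1 j hj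
      simp only at this
      rwa [hae j (((hG n).2 m).1 hj)] at this
    · have := hm2 j hj
      simp only at this
      rwa [hae j (((hG n).2 m).2.1 hj)] at this
  have h4 := ((hG n).2 m).2.2.2
  have : x ∈ box (G n m) ∩ F n := ⟨hbox, hn⟩
  rw [h4] at this
  exact this

end Pool.Agent.Y302.SG
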