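import Pool.Agent.Y302.SG.Defs
import Pool.Agent.Y302.SG.Cof

/-!
# The cofinalities below `ℵ_ω` and for `κ^ω = κ`
-/

set_option autoImplicit false

open Set Topology Cardinal

namespace Pool.Agent.Y302.SG

universe u

/-- Passing to the successor. -/
theorem countableCof_succ (κ : Cardinal.{u}) (hκ : ℵ₀ ≤ κ)
    (h : ∀ I : Type u, #I ≤ κ → CountableCof I κ) :
    ∀ I : Type u, #I ≤ Order.succ κ → CountableCof I (Order.succ κ) := by
  classical
  intro I hI
  obtain ⟨_, _, hr⟩ := Cardinal.exists_ord_eq_type_lt I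
  rcases hI.lt_or_eq with hlt | heq
  · obtain ⟨C, hC1, hC2, hC3⟩ := h I (Order.lt_succ_iff.1 hlt)
    exact ⟨C, hC1.trans (Order.le_succ κ), hC2, hC3⟩
  have hseg : ∀ a : I, #(Iio a) ≤ κ := by
    intro a
    have h1 : #(Iio a) < #I := Cardinal.mk_Iio_lt a hr
    rw [heq] at h1
    exact Order.lt_succ_iff.1 h1
  choose C hC1 hC2 hC3 using fun a : I => h (Iio a) (hseg a)
  refine ⟨⋃ a, (fun A : Set (Iio a) => ((↑) : Iio a → I) '' A) '' C a, ?_, ?_, ?_⟩
  · refine (Cardinal.mk_iUnion_le _).trans ?_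
    have h2 : ∀ a : I, #((fun A : Set (Iio a) => ((↑) : Iio a → I) '' A) '' C a) ≤ κ :=
      fun a => Cardinal.mk_image_le.trans (hC1 a)
    calc #I * ⨆ a, #((fun A : Set (Iio a) => ((↑) : Iio a → I) '' A) '' C a)
        ≤ Order.succ κ * κ := mul_le_mul' hI (ciSup_le' h2)
      _ ≤ Order.succ κ * Order.succ κ := mul_le_mul' le_rfl (Order.le_succ κ)
      _ = Order.succ κ := Cardinal.mul_eq_self (hκ.trans (Order.le_succ κ))
  · intro B hB
    obtain ⟨a, A, hA, rfl⟩ := mem_iUnion.1 hB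
    exact (hC2 a A hA).image _
  · intro S hS
    -- a countable set is bounded
    have hb : ∃ b : I, ∀ i ∈ S, i < b := by
      by_contra hno
      push Not at hno
      have hcov : (Set.univ : Set I) ⊆ ⋃ i ∈ S, (insert i (Iio i)) := by
        intro b _
        obtain ⟨i, hi, hib⟩ := hno b
        refine mem_biUnion hi ?_
        rcases hib.lt_or_eq with h | h
        · exact Or.inr h
        · exact Or.inl h
      have h1 : #(Set.univ : Set I) ≤ κ := by
        refine (Cardinal.mk_le_mk_of_subset hcov).trans ?_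
        refine (Cardinal.mk_biUnion_le _ S).trans ?_
        have h3 : ∀ i : S, #((insert i.1 (Iio i.1) : Set I)) ≤ κ := fun i =>
          (Cardinal.mk_insert_le).trans ((add_le_add (hseg i.1) (Cardinal.one_le_aleph0.trans hκ)).trans
            (Cardinal.add_eq_self hκ).le)
        calc #S * ⨆ i : S, #((insert i.1 (Iio i.1) : Set I))
            ≤ κ * κ := mul_le_mul' ((Cardinal.le_aleph0_iff_set_countable.2 hS).trans hκ)
              (ciSup_le' h3)
          _ = κ := Cardinal.mul_eq_self hκ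
      rw [Cardinal.mk_univ, heq] at h1
      exact absurd h1 (not_le.2 (Order.lt_succ κ))
    obtain ⟨b, hb⟩ := hb
    obtain ⟨A, hA, hSA⟩ := hC3 b (((↑) : Iio b → I) ⁻¹' S)
      (hS.preimage_of_injOn Subtype.val_injective.injOn)
    refine ⟨_, mem_iUnion.2 ⟨b, A, hA, rfl⟩, ?_⟩
    intro i hi
    exact ⟨⟨i, hb i hi⟩, hSA hi, rfl⟩

/-- `cof([ℵ_n]^{≤ω}) ≤ ℵ_n` for all `n` (for `n = 0` trivially). -/
theorem countableCof_aleph (n : ℕ) :
    ∀ I : Type u, #I ≤ ℵ_ (n : Ordinal.{u}) → CountableCof I (ℵ_ (n : Ordinal.{u})) := by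
  induction n with
  | zero =>
    intro I hI
    have hI' : #I ≤ ℵ₀ := by simpa using hI
    refine ⟨{Set.univ}, ?_, ?_, ?_⟩
    · rw [Cardinal.mk_singleton]
      exact Cardinal.one_le_aleph0.trans (Cardinal.aleph0_le_aleph _)
    · rintro A rfl
      exact Cardinal.le_aleph0_iff_set_countable.1 (by rwa [Cardinal.mk_univ])
    · intro S _
      exact ⟨Set.univ, rfl, subset_univ S⟩
  | succ n ih =>
    have h := countableCof_succ _ (Cardinal.aleph0_le_aleph _) ih
    rw [Cardinal.succ_aleph] at h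
    have h2 : (((n + 1 : ℕ) : Ordinal.{u})) = ((n : ℕ) : Ordinal.{u}) + 1 := by
      simp
    rw [h2]
    exact h

/-- The hypothesis `κ^ω = κ` of the starting result implies the two hypotheses. -/
theorem countableCof_of_power (I : Type u) [Infinite I] (hI : #I ^ ℵ₀ = #I) :
    CountableCof I #I := by
  refine ⟨{A | A.Countable}, ?_, fun A hA => hA, fun S hS => ⟨S, hS, subset_rfl⟩⟩
  have h1 : {A : Set I | A.Countable} ⊆ insert ∅ (range fun f : ℕ → I => range f) := by
    intro A hA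
    rcases A.eq_empty_or_nonempty with h | h
    · exact Or.inl h
    · obtain ⟨f, hf⟩ := (show A.Countable from hA).exists_eq_range h
      exact Or.inr ⟨f, hf.symm⟩
  refine (Cardinal.mk_le_mk_of_subset h1).trans (Cardinal.mk_insert_le.trans ?_)
  have h2 : #(range fun f : ℕ → I => range f) ≤ #I := by
    refine Cardinal.mk_range_le.trans ?_
    rw [Cardinal.mk_arrow]
    simpa using hI.le
  exact (add_le_add h2 (Cardinal.one_le_aleph0.trans (Cardinal.aleph0_le_mk I))).trans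
    (Cardinal.add_eq_self (Cardinal.aleph0_le_mk I)).le

/-- the open set coded by a sequence of basic conditions -/
def opn (g : ℕ → Finset ℕ × Finset ℕ) : Set (ℕ → Bool) :=
  {y | ∃ m, (∀ k ∈ (g m).1, y k = true) ∧ ∀ k ∈ (g m).2, y k = false}

theorem exists_opn (V : Set (ℕ → Bool)) (hV : IsOpen V) (hne : V.Nonempty) :
    ∃ g, opn g = V := by
  classical
  let E : Set (Finset ℕ × Finset ℕ) := {w | ∀ y : ℕ → Bool, (∀ k ∈ w.1, y k = true) →
    (∀ k ∈ w.2, y k = false) → y ∈ V}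
  have hcyl : ∀ y ∈ V, ∃ w ∈ E, (∀ k ∈ w.1, y k = true) ∧ ∀ k ∈ w.2, y k = false := by
    intro y hy
    obtain ⟨J, v, hv, hJ⟩ := isOpen_pi_iff.1 hV y hy
    refine ⟨(J.filter fun k => y k = true, J.filter fun k => y k = false), ?_, ?_, ?_⟩
    · intro z hz1 hz2
      refine hJ fun k hk => ?_
      have hzk : z k = y k := by
        rcases hb : y k with _ | _
        · exact hz2 k (Finset.mem_filter.2 ⟨hk, hb⟩)
        · exact hz1 k (Finset.mem_filter.2 ⟨hk, hb⟩)
      rw [hzk]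
      exact (hv k hk).2
    · intro k hk
      exact (Finset.mem_filter.1 hk).2
    · intro k hk
      exact (Finset.mem_filter.1 hk).2
  obtain ⟨y0, hy0⟩ := hne
  obtain ⟨w0, hw0, -⟩ := hcyl y0 hy0
  obtain ⟨g, hg⟩ := (Set.to_countable E).exists_eq_range ⟨w0, hw0⟩
  refine ⟨g, ?_⟩
  ext y
  constructor
  · rintro ⟨m, h1, h2⟩
    have : g m ∈ E := hg ▸ mem_range_self m
    exact this y h1 h2
  · intro hy
    obtain ⟨w, hw, h1, h2⟩ := hcyl y hy
    have : w ∈ range g := hg ▸ hw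
    obtain ⟨m, rfl⟩ := this
    exact ⟨m, h1, h2⟩

/-- `cof(M) ≤ κ` for every `κ ≥ 𝔠`. -/
theorem meagreCof_of_continuum (κ : Cardinal.{u}) (hκ : 𝔠 ≤ κ) : MeagreCof κ := by
  let T : Set (ℕ → ℕ → Finset ℕ × Finset ℕ) := {g | ∀ k, Dense (opn (g k)) ∧ IsOpen (opn (g k))}
  refine ⟨(fun g : ℕ → ℕ → Finset ℕ × Finset ℕ => (⋂ k, opn (g k))ᶜ) '' T, ?_, ?_, ?_⟩
  · have h1 : #((fun g : ℕ → ℕ → Finset ℕ × Finset ℕ => (⋂ k, opn (g k))ᶜ) '' T) ≤ 𝔠 := by
      refine Cardinal.mk_image_le.trans ((Cardinal.mk_set_le T).trans ?_)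
      have h2 : #(Finset ℕ × Finset ℕ) = ℵ₀ := Cardinal.mk_eq_aleph0 _
      have h3 : #(ℕ → Finset ℕ × Finset ℕ) = 𝔠 := by
        rw [Cardinal.mk_arrow, h2]
        simp
      rw [Cardinal.mk_arrow, h3]
      simp
    refine (Cardinal.lift_le.2 h1).trans ?_
    simpa using hκ
  · rintro A ⟨g, hg, rfl⟩
    simp only [compl_iInter]
    refine isMeagre_iUnion fun k => ?_
    rw [IsMeagre, compl_compl]
    exact residual_of_dense_open (hg k).2 (hg k).1
  · intro M hM
    obtain ⟨V, hVo, hVd, hVM⟩ := exists_open_seq M hM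
    choose g hg using fun k => exists_opn (V k) (hVo k) (hVd k).nonempty
    refine ⟨_, ⟨g, fun k => ?_, rfl⟩, ?_⟩
    · rw [hg k]
      exact ⟨hVd k, hVo k⟩
    · intro y hy hy'
      refine hVM y (fun k => ?_) hy
      rw [← hg k]
      exact mem_iInter.1 hy' k

theorem meagreCof_of_power (I : Type u) [Infinite I] (hI : #I ^ ℵ₀ = #I) : MeagreCof.{u} #I := by
  refine meagreCof_of_continuum _ ?_
  rw [← hI, ← Cardinal.two_power_aleph0]
  exact Cardinal.power_le_power_right ((Cardinal.ofNat_lt_aleph0 (n := 2)).le.trans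
    (Cardinal.aleph0_le_mk I))

end Pool.Agent.Y302.SG
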